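import Mathlib

/-!
# The Grothendieck group of finitely generated modules

`G0 A` is the group `G_0(A) = K'_0(Spec A)` of a commutative noetherian ring `A`.
-/

set_option autoImplicit false

open Function

namespace Pool.Agent.Helper13.GZ

section

variable (A : Type) [CommRing A]

/-- The relations `[M] = [L] + [N]` for the exact sequences `0 → L → M → N → 0` of finitely generated
modules. -/
def relations : Set (FreeAbelianGroup (FGModuleCat.{0} A)) :=
  {x | ∃ (L M N : FGModuleCat.{0} A) (f : L →ₗ[A] M) (g : M →ₗ[A] N),
    Injective f ∧ Exact f g ∧ Surjective g ∧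
      x = FreeAbelianGroup.of M - (FreeAbelianGroup.of L + FreeAbelianGroup.of N)}

/-- The Grothendieck group of the finitely generated modules over the noetherian ring `A`: the free
abelian group on the finitely generated modules modulo the relations `[M] = [L] + [N]` for the exact
sequences `0 → L → M → N → 0`. -/
def G0 : Type 1 := FreeAbelianGroup (FGModuleCat.{0} A) ⧸ AddSubgroup.closure (relations A)

noncomputable instance : AddCommGroup (G0 A) :=
  inferInstanceAs (AddCommGroup (FreeAbelianGroup (FGModuleCat.{0} A) ⧸
    AddSubgroup.closure (relations A)))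

/-- The class of a finitely generated module. -/
noncomputable def cl (M : Type) [AddCommGroup M] [Module A M] [Module.Finite A M] : G0 A :=
  QuotientAddGroup.mk (FreeAbelianGroup.of (FGModuleCat.of A M))

end

section

variable {A : Type} [CommRing A]

lemma cl_exact {L M N : Type} [AddCommGroup L] [AddCommGroup M] [AddCommGroup N] [Module A L]
    [Module A M] [Module A N] [Module.Finite A L] [Module.Finite A M] [Module.Finite A N]
    (f : L →ₗ[A] M) (g : M →ₗ[A] N) (hf : Injective f) (h : Exact f g) (hg : Surjective g) :
    cl A M = cl A L + cl A N := by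
  have h1 : FreeAbelianGroup.of (FGModuleCat.of A M) - (FreeAbelianGroup.of (FGModuleCat.of A L) +
      FreeAbelianGroup.of (FGModuleCat.of A N)) ∈ AddSubgroup.closure (relations A) :=
    AddSubgroup.subset_closure ⟨FGModuleCat.of A L, FGModuleCat.of A M, FGModuleCat.of A N, f, g,
      hf, h, hg, rfl⟩
  have h2 := (QuotientAddGroup.eq_zero_iff (N := AddSubgroup.closure (relations A)) _).2 h1
  rw [QuotientAddGroup.mk_sub, sub_eq_zero] at h2
  exact h2

lemma cl_zero (M : Type) [AddCommGroup M] [Module A M] [Module.Finite A M] [Subsingleton M] :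
    cl A M = 0 := by
  have h := cl_exact (A := A) (L := M) (M := M) (N := M) LinearMap.id LinearMap.id
    (fun _ _ h => h) (fun x => ⟨fun _ => ⟨x, rfl⟩, fun _ => Subsingleton.elim _ _⟩) fun x => ⟨x, rfl⟩
  simpa using h

lemma cl_congr {M N : Type} [AddCommGroup M] [AddCommGroup N] [Module A M] [Module A N]
    [Module.Finite A M] [Module.Finite A N] (e : M ≃ₗ[A] N) : cl A M = cl A N := by
  have h := cl_exact (A := A) (L := M) (M := N) (N := PUnit) e.toLinearMap 0 e.injective
    (fun x => ⟨fun _ => e.surjective x, fun _ => rfl⟩) fun x => ⟨0, Subsingleton.elim _ _⟩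
  rw [cl_zero PUnit, add_zero] at h
  exact h.symm

lemma cl_quotient {M : Type} [AddCommGroup M] [Module A M] [Module.Finite A M]
    (N : Submodule A M) [Module.Finite A N] : cl A M = cl A N + cl A (M ⧸ N) :=
  cl_exact N.subtype N.mkQ N.injective_subtype
    (LinearMap.exact_subtype_mkQ N) N.mkQ_surjective

lemma eq_top_of_cl (H : AddSubgroup (G0 A)) (h : ∀ V : FGModuleCat.{0} A, cl A V ∈ H) : H = ⊤ := by
  rw [eq_top_iff]
  intro x _
  induction x using QuotientAddGroup.induction_on with
  | H x =>
    induction x using FreeAbelianGroup.induction_on with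
    | zero => exact H.zero_mem
    | of V => exact h V
    | neg V hV => exact H.neg_mem (h V)
    | add x y hx hy => exact H.add_mem (hx trivial) (hy trivial)

/-- Additive functions. -/
noncomputable def lift {H : Type*} [AddCommGroup H] (φ : FGModuleCat.{0} A → H)
    (hφ : ∀ (L M N : FGModuleCat.{0} A) (f : L →ₗ[A] M) (g : M →ₗ[A] N), Injective f → Exact f g →
      Surjective g → φ M = φ L + φ N) : G0 A →+ H :=
  QuotientAddGroup.lift _ (FreeAbelianGroup.lift φ) (by
    rw [AddSubgroup.closure_le]
    rintro x ⟨L, M, N, f, g, hf, h, hg, rfl⟩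
    rw [SetLike.mem_coe, AddMonoidHom.mem_ker, map_sub, map_add, FreeAbelianGroup.lift_apply_of,
      FreeAbelianGroup.lift_apply_of, FreeAbelianGroup.lift_apply_of, hφ L M N f g hf h hg, sub_self])

lemma lift_cl {H : Type*} [AddCommGroup H] (φ : FGModuleCat.{0} A → H) (hφ) (V : FGModuleCat.{0} A) :
    lift φ hφ (cl A V) = φ V :=
  FreeAbelianGroup.lift_apply_of _ _

end

/-! ### Restriction of scalars -/

/-- The module `V` over `C`, considered as a module over `B`. -/
def Rs (_B _C V : Type) : Type := V

section

variable {B C : Type} [CommRing B] [CommRing C] [Algebra B C]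
  {V : Type} [AddCommGroup V] [Module C V]

instance : AddCommGroup (Rs B C V) := inferInstanceAs (AddCommGroup V)

instance : Module C (Rs B C V) := inferInstanceAs (Module C V)

instance : Module B (Rs B C V) := Module.compHom (Rs B C V) (algebraMap B C)

instance : IsScalarTower B C (Rs B C V) where
  smul_assoc b c v := by
    rw [Algebra.smul_def, mul_smul]
    rfl

instance [Module.Finite C V] : Module.Finite C (Rs B C V) := inferInstanceAs (Module.Finite C V)

instance [Module.Finite B C] [Module.Finite C V] : Module.Finite B (Rs B C V) :=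
  Module.Finite.trans C (Rs B C V)

/-- A linear map over `B`. -/
def resMap (B : Type) {C : Type} [CommRing B] [CommRing C] [Algebra B C]
    {L M : Type} [AddCommGroup L] [AddCommGroup M] [Module C L] [Module C M] (f : L →ₗ[C] M) :
    Rs B C L →ₗ[B] Rs B C M where
  toFun := f
  map_add' := f.map_add
  map_smul' b x := f.map_smul (algebraMap B C b) x

/-- The identity. -/
def rsEquiv (B C M : Type) [CommRing B] [CommRing C] [Algebra B C]
    [AddCommGroup M] [Module B M] [Module C M] [IsScalarTower B C M] : Rs B C M ≃ₗ[B] M where
  toFun := id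
  invFun := id
  left_inv _ := rfl
  right_inv _ := rfl
  map_add' _ _ := rfl
  map_smul' b x := algebraMap_smul C b (id x : M)

variable (B C) in
/-- Restriction of scalars for finite algebras. -/
noncomputable def res [Module.Finite B C] : G0 C →+ G0 B :=
  lift (fun V => cl B (Rs B C V)) fun _ _ _ f g hf h hg =>
    cl_exact (resMap B f) (resMap B g) hf h hg

lemma res_cl [Module.Finite B C] (M : Type) [AddCommGroup M] [Module B M] [Module C M]
    [IsScalarTower B C M] [Module.Finite B M] [Module.Finite C M] :
    res B C (cl C M) = cl B M := by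
  have h : res B C (cl C M) = cl B (Rs B C M) := lift_cl _ _ (FGModuleCat.of C M)
  rw [h]
  exact cl_congr (rsEquiv B C M)

end

end Pool.Agent.Helper13.GZ
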