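import Pool.Agent.Helper13.GZ.Defs

/-!
# The localization sequence in degree zero

`G_0(B/w) → G_0(B) → G_0(B_w) → 0` is exact.
-/

set_option autoImplicit false

open Function

namespace Pool.Agent.Helper13.GZ

section

variable {B : Type} [CommRing B]

/-- The classes of the modules over `B/w`. -/
noncomputable def kerW (w : B) : AddSubgroup (G0 B) := (res B (B ⧸ Ideal.span {w})).range

lemma cl_mem_of_smul (w : B) (M : Type) [AddCommGroup M] [Module B M] [Module.Finite B M]
    (h : ∀ m : M, w • m = 0) : cl B M ∈ kerW w := by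
  have h1 : Module.IsTorsionBySet B M (Ideal.span {w} : Ideal B) := by
    have h2 : Module.IsTorsionBySet B M (Submodule.span B {w}) :=
      (Module.isTorsionBySet_span_singleton_iff w).2 fun m => h m
    exact h2
  let _ : Module (B ⧸ Ideal.span {w}) M := h1.module
  have _ : IsScalarTower B (B ⧸ Ideal.span {w}) M := h1.isScalarTower
  have _ : Module.Finite (B ⧸ Ideal.span {w}) M :=
    Module.Finite.of_restrictScalars_finite B (B ⧸ Ideal.span {w}) M
  exact ⟨cl (B ⧸ Ideal.span {w}) M, res_cl M⟩

variable [IsNoetherianRing B]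

lemma cl_mem_of_pow (w : B) (k : ℕ) : ∀ (M : Type) [AddCommGroup M] [Module B M]
    [Module.Finite B M], (∀ m : M, w ^ k • m = 0) → cl B M ∈ kerW w := by
  induction k with
  | zero =>
    intro M _ _ _ h
    have : Subsingleton M := ⟨fun x y => by
      have hx := h x
      have hy := h y
      rw [pow_zero, one_smul] at hx hy
      rw [hx, hy]⟩
    rw [cl_zero]
    exact (kerW w).zero_mem
  | succ k ih =>
    intro M _ _ _ h
    have hN : IsNoetherian B M := isNoetherian_of_isNoetherianRing_of_finite B M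
    let N : Submodule B M := LinearMap.range (LinearMap.lsmul B M w)
    rw [cl_quotient N]
    refine (kerW w).add_mem (ih N ?_) (cl_mem_of_smul w _ ?_)
    · rintro ⟨_, m, rfl⟩
      apply Subtype.ext
      change w ^ k • w • m = 0
      rw [smul_smul, ← pow_succ]
      exact h m
    · intro m
      obtain ⟨m, rfl⟩ := N.mkQ_surjective m
      rw [← map_smul, Submodule.mkQ_apply, Submodule.Quotient.mk_eq_zero]
      exact ⟨m, rfl⟩

/-! ### Lattices -/

/-- Finitely generated submodules `N₀` of `N` such that each element of `N` is in `N₀` after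
multiplication with a power of `w`. -/
structure Lat (w : B) {N : Type} [AddCommGroup N] [Module B N] (N₀ : Submodule B N) : Prop where
  fg : Module.Finite B N₀
  pow : ∀ x : N, ∃ k : ℕ, w ^ k • x ∈ N₀

section

variable {w : B} {N : Type} [AddCommGroup N] [Module B N] {N₀ N₁ : Submodule B N}

lemma Lat.sup (h0 : Lat w N₀) (h1 : Lat w N₁) : Lat w (N₀ ⊔ N₁) := by
  have h2 := h0.fg
  have h3 := h1.fg
  refine ⟨inferInstance, fun x => ?_⟩
  obtain ⟨k, hk⟩ := h0.pow x
  exact ⟨k, Submodule.mem_sup_left hk⟩

/-- A common exponent. -/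
lemma exists_pow (h0 : Lat w N₀) (h1 : N₁.FG) : ∃ k : ℕ, ∀ x ∈ N₁, w ^ k • x ∈ N₀ := by
  classical
  obtain ⟨s, rfl⟩ := h1
  induction s using Finset.induction_on with
  | empty =>
    refine ⟨0, fun x hx => ?_⟩
    rw [Finset.coe_empty, Submodule.span_empty, Submodule.mem_bot] at hx
    rw [hx, smul_zero]
    exact N₀.zero_mem
  | insert a s _ ih =>
    obtain ⟨k, hk⟩ := ih
    obtain ⟨l, hl⟩ := h0.pow a
    refine ⟨k + l, fun x hx => ?_⟩
    rw [Finset.coe_insert, Submodule.mem_span_insert] at hx
    obtain ⟨c, z, hz, rfl⟩ := hx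
    rw [smul_add]
    refine N₀.add_mem ?_ ?_
    · rw [smul_comm, pow_add, mul_smul]
      exact N₀.smul_mem _ (N₀.smul_mem _ hl)
    · rw [pow_add, mul_comm, mul_smul]
      exact N₀.smul_mem _ (hk z hz)

lemma cl_le (h0 : Lat w N₀) (h1 : Lat w N₁) (hle : N₀ ≤ N₁) [Module.Finite B N₀]
    [Module.Finite B N₁] : (QuotientAddGroup.mk (cl B N₁) : G0 B ⧸ kerW w) =
      QuotientAddGroup.mk (cl B N₀) := by
  have hN : IsNoetherian B N₁ := isNoetherian_of_isNoetherianRing_of_finite B N₁
  have h2 := cl_quotient (A := B) (M := N₁) (N₀.submoduleOf N₁)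
  have h3 : cl B (N₀.submoduleOf N₁) = cl B N₀ := cl_congr (Submodule.submoduleOfEquivOfLe hle)
  obtain ⟨k, hk⟩ := exists_pow h0 (Module.Finite.iff_fg.1 h1.fg)
  have h4 : cl B (N₁ ⧸ N₀.submoduleOf N₁) ∈ kerW w := by
    refine cl_mem_of_pow w k _ fun m => ?_
    obtain ⟨m, rfl⟩ := (N₀.submoduleOf N₁).mkQ_surjective m
    rw [← map_smul, Submodule.mkQ_apply, Submodule.Quotient.mk_eq_zero]
    exact hk m.1 m.2
  rw [h2, h3, QuotientAddGroup.mk_add, (QuotientAddGroup.eq_zero_iff _).2 h4, add_zero]

lemma cl_lat (h0 : Lat w N₀) (h1 : Lat w N₁) [Module.Finite B N₀] [Module.Finite B N₁] :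
    (QuotientAddGroup.mk (cl B N₁) : G0 B ⧸ kerW w) = QuotientAddGroup.mk (cl B N₀) := by
  have h2 := h0.sup h1
  have _ := h2.fg
  rw [← cl_le h1 h2 le_sup_right, ← cl_le h0 h2 le_sup_left]

end

lemma Lat.equiv {w : B} {N N' : Type} [AddCommGroup N] [Module B N] [AddCommGroup N'] [Module B N']
    (e : N ≃ₗ[B] N') {N₀ : Submodule B N} (h : Lat w N₀) : Lat w (N₀.map e.toLinearMap) := by
  have h1 := h.fg
  refine ⟨inferInstance, fun x => ?_⟩
  obtain ⟨k, hk⟩ := h.pow (e.symm x)
  refine ⟨k, _, hk, ?_⟩
  rw [map_smul]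
  change w ^ k • e (e.symm x) = _
  rw [LinearEquiv.apply_symm_apply]

/-- Existence of lattices. -/
lemma exists_lat (w : B) {B' : Type} [CommRing B'] [Algebra B B'] [IsLocalization.Away w B']
    (N : Type) [AddCommGroup N] [Module B N] [Module B' N] [IsScalarTower B B' N]
    [Module.Finite B' N] : ∃ N₀ : Submodule B N, Lat w N₀ := by
  obtain ⟨s, hs⟩ := (Module.finite_def (R := B') (M := N)).1 inferInstance
  refine ⟨Submodule.span B s, Module.Finite.iff_fg.2 ⟨s, rfl⟩, fun x => ?_⟩
  have hx : x ∈ Submodule.span B' (s : Set N) := by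
    rw [hs]
    trivial
  induction hx using Submodule.span_induction with
  | mem x hx =>
    refine ⟨0, ?_⟩
    rw [pow_zero, one_smul]
    exact Submodule.subset_span hx
  | zero => exact ⟨0, by rw [smul_zero]; exact Submodule.zero_mem _⟩
  | add x y _ _ hx hy =>
    obtain ⟨k, hk⟩ := hx
    obtain ⟨l, hl⟩ := hy
    refine ⟨k + l, ?_⟩
    rw [smul_add]
    refine Submodule.add_mem _ ?_ ?_
    · rw [pow_add, mul_comm, mul_smul]
      exact Submodule.smul_mem _ _ hk
    · rw [pow_add, mul_smul]
      exact Submodule.smul_mem _ _ hl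
  | smul c x _ hx =>
    obtain ⟨k, hk⟩ := hx
    obtain ⟨n, b, hb⟩ := IsLocalization.Away.surj w c
    refine ⟨n + k, ?_⟩
    have h1 : w ^ n • c • x = b • x := by
      rw [← smul_assoc, Algebra.smul_def, map_pow, mul_comm, hb, algebraMap_smul]
    rw [pow_add, mul_comm, mul_smul, h1, smul_comm]
    exact Submodule.smul_mem _ _ hk

/-- Additivity for lattices. -/
lemma lat_exact {w : B} {L M N : Type} [AddCommGroup L] [AddCommGroup M] [AddCommGroup N]
    [Module B L] [Module B M] [Module B N] (f : L →ₗ[B] M) (g : M →ₗ[B] N) (hf : Injective f)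
    (h : Exact f g) (hg : Surjective g) {M₀ : Submodule B M} (hM : Lat w M₀) :
    Lat w (M₀.comap f) ∧ Lat w (M₀.map g) ∧ ∀ [Module.Finite B M₀] [Module.Finite B (M₀.comap f)]
      [Module.Finite B (M₀.map g)], cl B M₀ = cl B (M₀.comap f) + cl B (M₀.map g) := by
  have hfin := hM.fg
  have hN : IsNoetherian B M₀ := isNoetherian_of_isNoetherianRing_of_finite B M₀
  let f' : M₀.comap f →ₗ[B] M₀ := f.restrict fun x hx => hx
  let g' : M₀ →ₗ[B] M₀.map g := g.restrict fun x hx => ⟨x, hx, rfl⟩
  have hf' : Injective f' := fun x y hxy => Subtype.ext (hf (congrArg Subtype.val hxy))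
  have hg' : Surjective g' := by
    rintro ⟨_, x, hx, rfl⟩
    exact ⟨⟨x, hx⟩, rfl⟩
  have he : Exact f' g' := by
    rintro ⟨y, hy⟩
    constructor
    · intro hy0
      have h1 : g y = 0 := congrArg Subtype.val hy0
      obtain ⟨x, rfl⟩ := (h y).1 h1
      exact ⟨⟨x, hy⟩, rfl⟩
    · rintro ⟨x, hx⟩
      apply Subtype.ext
      change g y = 0
      have h1 : f x.1 = y := congrArg Subtype.val hx
      exact (h y).2 ⟨x.1, h1⟩
  refine ⟨⟨Module.Finite.of_injective f' hf', fun x => ?_⟩, ⟨Module.Finite.of_surjective g' hg',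
    fun x => ?_⟩, fun {_} {_} {_} => cl_exact f' g' hf' he hg'⟩
  · obtain ⟨k, hk⟩ := hM.pow (f x)
    exact ⟨k, by rw [Submodule.mem_comap, map_smul]; exact hk⟩
  · obtain ⟨x, rfl⟩ := hg x
    obtain ⟨k, hk⟩ := hM.pow x
    exact ⟨k, _, hk, map_smul _ _ _⟩

/-! ### The inverse of the localization modulo `kerW` -/

section

variable (w : B) {B' : Type} [CommRing B'] [Algebra B B'] [IsLocalization.Away w B']

/-- The class of a lattice. -/
noncomputable def latCl (N : Type) [AddCommGroup N] [Module B N] [Module B' N]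
    [IsScalarTower B B' N] [Module.Finite B' N] : G0 B ⧸ kerW w :=
  have := (exists_lat (B' := B') w N).choose_spec.fg
  QuotientAddGroup.mk (cl B (exists_lat (B' := B') w N).choose)

lemma latCl_eq (N : Type) [AddCommGroup N] [Module B N] [Module B' N]
    [IsScalarTower B B' N] [Module.Finite B' N] {N₀ : Submodule B N} (h : Lat w N₀)
    [Module.Finite B N₀] : latCl (B' := B') w N = QuotientAddGroup.mk (cl B N₀) :=
  have := (exists_lat (B' := B') w N).choose_spec.fg
  cl_lat h (exists_lat (B' := B') w N).choose_spec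

variable (B') in
/-- The homomorphism from `G_0(B_w)` to the quotient of `G_0(B)`. -/
noncomputable def psi : G0 B' →+ G0 B ⧸ kerW w :=
  lift (fun V => latCl (B' := B') w (Rs B B' V)) fun L M N f g hf h hg => by
    obtain ⟨M₀, hM⟩ := exists_lat (B' := B') w (Rs B B' M)
    obtain ⟨h1, h2, h3⟩ := lat_exact (resMap B f) (resMap B g) hf h hg hM
    have _ := h1.fg
    have _ := h2.fg
    have _ := hM.fg
    rw [latCl_eq w _ h1, latCl_eq w _ h2, latCl_eq w _ hM, h3, QuotientAddGroup.mk_add]

lemma psi_cl (N : Type) [AddCommGroup N] [Module B N] [Module B' N]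
    [IsScalarTower B B' N] [Module.Finite B' N] {N₀ : Submodule B N} (h : Lat w N₀)
    [Module.Finite B N₀] : psi w B' (cl B' N) = QuotientAddGroup.mk (cl B N₀) := by
  have h1 : psi w B' (cl B' N) = latCl (B' := B') w (Rs B B' N) := lift_cl _ _ (FGModuleCat.of B' N)
  let e := (rsEquiv B B' N).symm
  have h2 : Lat w (N₀.map e.toLinearMap) := h.equiv e
  rw [h1, latCl_eq w _ h2]
  congr 1
  exact cl_congr (e.submoduleMap N₀).symm

/-- `psi` is surjective. -/
lemma psi_surjective : Surjective (psi w (Localization.Away w)) := by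
  rw [← AddMonoidHom.range_eq_top]
  have h1 : ((psi w (Localization.Away w)).range.comap (QuotientAddGroup.mk' (kerW w))) = ⊤ := by
    refine eq_top_of_cl _ fun V => ?_
    have hN : IsNoetherian B V := isNoetherian_of_isNoetherianRing_of_finite B V
    let ι : V →ₗ[B] LocalizedModule (Submonoid.powers w) V := LocalizedModule.mkLinearMap _ _
    have h2 : Lat w (LinearMap.range ι) := by
      refine ⟨inferInstance, fun x => ?_⟩
      obtain ⟨⟨m, ⟨_, k, rfl⟩⟩, h3⟩ := IsLocalizedModule.surj (Submonoid.powers w) ι x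
      exact ⟨k, m, h3.symm⟩
    have h3 : cl B V = cl B (LinearMap.ker ι) + cl B (LinearMap.range ι) :=
      cl_exact (LinearMap.ker ι).subtype ι.rangeRestrict (Submodule.injective_subtype _)
        (LinearMap.exact_iff.2 (by
          rw [LinearMap.ker_rangeRestrict, Submodule.range_subtype]))
        ι.surjective_rangeRestrict
    have h4 : cl B (LinearMap.ker ι) ∈ kerW w := by
      have h5 : Lat w (⊥ : Submodule B (LinearMap.ker ι)) := by
        refine ⟨inferInstance, fun x => ?_⟩
        obtain ⟨⟨_, k, rfl⟩, hk⟩ := (IsLocalizedModule.eq_zero_iff (Submonoid.powers w) ι).1 x.2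
        exact ⟨k, (Submodule.mem_bot B).2 (Subtype.ext hk)⟩
      obtain ⟨k, hk⟩ := exists_pow h5 (N₁ := ⊤) (Module.finite_def.1 inferInstance)
      exact cl_mem_of_pow w k _ fun m => (Submodule.mem_bot B).1 (hk m trivial)
    have h6 : psi w (Localization.Away w) (cl _ (LocalizedModule (Submonoid.powers w) V)) =
        QuotientAddGroup.mk (cl B (LinearMap.range ι)) := psi_cl w _ h2
    refine ⟨cl _ (LocalizedModule (Submonoid.powers w) V), ?_⟩
    rw [h6]
    change _ = QuotientAddGroup.mk (cl B V)
    rw [h3, QuotientAddGroup.mk_add, (QuotientAddGroup.eq_zero_iff _).2 h4, zero_add]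
  rw [eq_top_iff]
  intro x _
  obtain ⟨x, rfl⟩ := QuotientAddGroup.mk_surjective x
  have h2 : x ∈ ((psi w (Localization.Away w)).range.comap (QuotientAddGroup.mk' (kerW w))) := by
    rw [h1]
    trivial
  exact h2

end

end

/-! ### Finite generation -/

lemma fg_exact {A B C : Type*} [AddCommGroup A] [AddCommGroup B] [AddCommGroup C] (f : A →+ B)
    (g : B →+ C) (h : Exact f g) (hA : AddGroup.FG A) (hC : AddGroup.FG C) :
    AddGroup.FG B := by
  have iA : Module.Finite ℤ A := Module.Finite.iff_addGroup_fg.mpr hA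
  have iC : Module.Finite ℤ C := Module.Finite.iff_addGroup_fg.mpr hC
  have : IsNoetherian ℤ A := isNoetherian_of_isNoetherianRing_of_finite ℤ A
  have : IsNoetherian ℤ C := isNoetherian_of_isNoetherianRing_of_finite ℤ C
  have h1 : IsNoetherian ℤ B :=
    isNoetherian_of_range_eq_ker f.toIntLinearMap g.toIntLinearMap (by
      ext x
      exact (h x).symm)
  exact Module.Finite.iff_addGroup_fg.mp inferInstance

/-- **Finite generation for `G_0(B)` follows from `B/w` and `B_w`.** -/
theorem fg_of_cut {B : Type} [CommRing B] [IsNoetherianRing B] (w : B)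
    (h1 : AddGroup.FG (G0 (B ⧸ Ideal.span {w}))) (h2 : AddGroup.FG (G0 (Localization.Away w))) :
    AddGroup.FG (G0 B) := by
  refine fg_exact (res B (B ⧸ Ideal.span {w})) (QuotientAddGroup.mk' (kerW w)) (fun x => ?_) h1
    (AddGroup.fg_of_surjective (psi_surjective w))
  rw [QuotientAddGroup.mk'_apply, QuotientAddGroup.eq_zero_iff]
  rfl

/-- `G_0` of the zero ring. -/
theorem fg_zero {A : Type} [CommRing A] [Subsingleton A] : AddGroup.FG (G0 A) := by
  have h1 : (⊥ : AddSubgroup (G0 A)) = ⊤ := eq_top_of_cl _ fun V => by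
    have : Subsingleton V := Module.subsingleton A V
    rw [cl_zero]
    exact AddSubgroup.zero_mem _
  have h2 : Subsingleton (G0 A) := by
    rw [← AddSubgroup.subsingleton_iff, ← subsingleton_iff_bot_eq_top]
    exact h1
  exact AddGroup.fg_of_finite

/-- Isomorphic rings. -/
theorem fg_of_equiv {A B : Type} [CommRing A] [CommRing B] (e : A ≃+* B)
    (h : AddGroup.FG (G0 B)) : AddGroup.FG (G0 A) := by
  let _ : Algebra A B := e.toRingHom.toAlgebra
  have hfin : Module.Finite A B := Module.Finite.of_surjective (Algebra.linearMap A B) e.surjective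
  refine AddGroup.fg_of_surjective (f := res A B) ?_
  rw [← AddMonoidHom.range_eq_top]
  refine eq_top_of_cl _ fun V => ?_
  let _ : Module B V := Module.compHom V e.symm.toRingHom
  have _ : IsScalarTower A B V := ⟨fun a b v => by
    change e.symm (e a * b) • v = a • e.symm b • v
    rw [map_mul, e.symm_apply_apply, mul_smul]⟩
  have _ : Module.Finite B V := Module.Finite.of_restrictScalars_finite A B V
  exact ⟨cl B V, res_cl V⟩

section

variable {C : Type} [CommRing C] (b : C)

/-- The localization of a linear map. -/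
noncomputable def locMap {L M : Type} [AddCommGroup L] [AddCommGroup M] [Module C L] [Module C M]
    (f : L →ₗ[C] M) : LocalizedModule (Submonoid.powers b) L →ₗ[Localization.Away b]
      LocalizedModule (Submonoid.powers b) M :=
  (IsLocalizedModule.map (Submonoid.powers b) (LocalizedModule.mkLinearMap _ L)
    (LocalizedModule.mkLinearMap _ M) f).extendScalarsOfIsLocalization (Submonoid.powers b)
      (Localization.Away b)

/-- The localization `G_0(C) → G_0(C_b)`. -/
noncomputable def loc : G0 C →+ G0 (Localization.Away b) :=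
  lift (fun V => cl (Localization.Away b) (LocalizedModule (Submonoid.powers b) V))
    fun L M N f g hf h hg =>
      cl_exact (locMap b f) (locMap b g)
        (IsLocalizedModule.map_injective (Submonoid.powers b) _ _ f hf)
        (LocalizedModule.map_exact (Submonoid.powers b) f g h)
        (IsLocalizedModule.map_surjective (Submonoid.powers b) _ _ g hg)

lemma loc_cl (V : FGModuleCat.{0} C) : loc b (cl C V) =
    cl (Localization.Away b) (LocalizedModule (Submonoid.powers b) V) := lift_cl _ _ _

/-- Localizations. -/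
theorem fg_of_loc [IsNoetherianRing C] (h : AddGroup.FG (G0 C)) :
    AddGroup.FG (G0 (Localization.Away b)) := by
  refine AddGroup.fg_of_surjective (f := loc b) ?_
  rw [← AddMonoidHom.range_eq_top]
  refine eq_top_of_cl _ fun V => ?_
  let N := Rs C (Localization.Away b) V
  obtain ⟨N₀, hN⟩ := exists_lat (B' := Localization.Away b) b N
  have hfin := hN.fg
  have hloc : IsLocalizedModule (Submonoid.powers b) N₀.subtype := by
    refine ⟨fun c => ?_, fun y => ?_, fun {x y} hxy => ⟨1, by rw [Subtype.ext hxy]⟩⟩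
    · have hu : IsUnit (algebraMap C (Localization.Away b) c) := IsLocalization.map_units _ c
      rw [Module.End.isUnit_iff]
      have h1 : (fun x : N => (hu.unit : Localization.Away b) • x) =
          (algebraMap C (Module.End C N) c : N → N) := by
        funext x
        rw [IsUnit.unit_spec, algebraMap_smul]
        rfl
      rw [← h1]
      exact MulAction.bijective hu.unit
    · obtain ⟨k, hk⟩ := hN.pow y
      exact ⟨⟨⟨_, hk⟩, ⟨b ^ k, k, rfl⟩⟩, rfl⟩
  let e : LocalizedModule (Submonoid.powers b) N₀ ≃ₗ[C] N :=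
    IsLocalizedModule.iso (Submonoid.powers b) N₀.subtype
  refine ⟨cl C N₀, ?_⟩
  have h1 := loc_cl b (FGModuleCat.of C N₀)
  have h2 : cl (Localization.Away b) (LocalizedModule (Submonoid.powers b) N₀) =
      cl (Localization.Away b) N :=
    cl_congr (e.extendScalarsOfIsLocalization (Submonoid.powers b) (Localization.Away b))
  exact h1.trans h2

end

end Pool.Agent.Helper13.GZ
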