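import Mathlib

/-!
# Smooth algebras over regular rings are regular
-/

set_option autoImplicit false

open IsLocalRing

namespace Pool.Agent.Helper13.GZ

/-- Étale algebras over regular rings are regular. -/
theorem regular_of_etale (B C : Type) [CommRing B] [CommRing C] [Algebra B C] [IsRegularRing B]
    [Algebra.Etale B C] : IsRegularRing C := by
  have hN : IsNoetherianRing C := Algebra.FiniteType.isNoetherianRing B C
  rw [isRegularRing_iff]
  intro q hq
  let p : Ideal B := q.under B
  have hp : p.IsPrime := inferInstance
  have hlo : q.LiesOver p := ⟨rfl⟩
  let φ : Localization.AtPrime p →+* Localization.AtPrime q :=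
    Localization.localRingHom p q (algebraMap B C) rfl
  let _ : Algebra (Localization.AtPrime p) (Localization.AtPrime q) := φ.toAlgebra
  have hL : Localization.AtPrime.IsLiesOverAlgebra p q := by
    constructor
    rfl
  have h1 : Algebra.IsUnramifiedAt B q := by
    infer_instance
  have h2 := ((Algebra.isUnramifiedAt_iff_map_eq B p q).1 h1).2
  have h3 : (maximalIdeal (Localization.AtPrime p)).map φ = maximalIdeal (Localization.AtPrime q) := by
    rw [← h2, ← Localization.AtPrime.map_eq_maximalIdeal, Ideal.map_map]
    congr 1
    ext b
    change φ (algebraMap B _ b) = _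
    rw [Localization.localRingHom_to_map, ← IsScalarTower.algebraMap_apply]
  apply IsRegularLocalRing.of_spanFinrank_maximalIdeal_le
  have h4 : (maximalIdeal (Localization.AtPrime q)).spanFinrank ≤
      (maximalIdeal (Localization.AtPrime p)).spanFinrank := by
    rw [← h3]
    exact Ideal.spanFinrank_map_le_of_fg φ (IsNoetherian.noetherian _)
  have h5 : ((maximalIdeal (Localization.AtPrime p)).spanFinrank : WithBot ℕ∞) =
      ringKrullDim (Localization.AtPrime p) :=
    IsRegularLocalRing.spanFinrank_maximalIdeal
  have h6 : ringKrullDim (Localization.AtPrime p) ≤ ringKrullDim (Localization.AtPrime q) := by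
    rw [IsLocalization.AtPrime.ringKrullDim_eq_height p (Localization.AtPrime p),
      IsLocalization.AtPrime.ringKrullDim_eq_height q (Localization.AtPrime q),
      Ideal.height_eq_height_add_of_liesOver_of_hasGoingDown p q]
    exact_mod_cast le_self_add
  refine le_trans ?_ h6
  rw [← h5]
  exact_mod_cast h4

/-- Smooth algebras over regular rings are regular. -/
theorem regular_of_smooth (B C : Type) [CommRing B] [CommRing C] [Algebra B C] [IsRegularRing B]
    [Algebra.Smooth B C] : IsRegularRing C := by
  have hN : IsNoetherianRing C := Algebra.FiniteType.isNoetherianRing B C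
  rw [isRegularRing_iff]
  intro p hp
  obtain ⟨f, hf, n, _, h1, h2⟩ := Algebra.IsSmoothAt.exists_isStandardEtale_mvPolynomial
    (R := B) (p := p)
  have h3 : IsRegularRing (Localization.Away f) :=
    regular_of_etale (MvPolynomial (Fin n) B) (Localization.Away f)
  have hd : Disjoint (Submonoid.powers f : Set C) (p : Set C) :=
    (Ideal.disjoint_powers_iff_notMem_of_isPrime _).mpr hf
  let P : Ideal (Localization.Away f) := p.map (algebraMap C (Localization.Away f))
  have hP : P.IsPrime := IsLocalization.isPrime_of_isPrime_disjoint (.powers f) _ _ hp hd
  have hPc : P.comap (algebraMap C (Localization.Away f)) = p :=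
    IsLocalization.comap_map_of_isPrime_disjoint (.powers f) _ hp hd
  have h4 : IsLocalization.AtPrime (Localization.AtPrime P)
      (P.comap (algebraMap C (Localization.Away f))) :=
    IsLocalization.isLocalization_isLocalization_atPrime_isLocalization (.powers f) _ P
  have h5 : IsRegularLocalRing (Localization.AtPrime P) := inferInstance
  have h6 : (P.comap (algebraMap C (Localization.Away f))).primeCompl = p.primeCompl := by
    ext x
    change x ∉ P.comap (algebraMap C (Localization.Away f)) ↔ x ∉ p
    rw [hPc]
  have h7 : IsLocalization p.primeCompl (Localization.AtPrime P) := by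
    rw [← h6]
    exact h4
  exact IsRegularLocalRing.of_ringEquiv
    (IsLocalization.algEquiv p.primeCompl (Localization.AtPrime P)
      (Localization.AtPrime p)).toRingEquiv

end Pool.Agent.Helper13.GZ
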